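import Mathlib

set_option autoImplicit false

/-!
Binary idempotent polymorphisms of finite connected bipartite graphs without 4-cycles and with all
degrees at least two: only the two projections.
-/

namespace Pool.Agent.Helper928.PP

universe u

variable {V : Type u} {G : SimpleGraph V} {col : V → Bool} {f : V → V → V}

/-- hypotheses on the graph and on the map -/
structure Setup (G : SimpleGraph V) (col : V → Bool) (f : V → V → V) : Prop where
  hcol : ∀ x y, G.Adj x y → col x ≠ col y
  c4 : ∀ a b c d, G.Adj a b → G.Adj b c → G.Adj c d → G.Adj d a → a = c ∨ b = d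
  hf : ∀ x x' y y', col x = col y → G.Adj x x' → G.Adj y y' → G.Adj (f x y) (f x' y')
  idem : ∀ x, f x x = x

theorem Setup.swap (h : Setup G col f) : Setup G col (fun x y => f y x) :=
  ⟨h.hcol, h.c4, fun x x' y y' hxy hx hy => h.hf y y' x x' hxy.symm hy hx, h.idem⟩

theorem Setup.eq_of_ne (h : Setup G col f) {x y z : V} (h1 : col x ≠ col y) (h2 : G.Adj y z) :
    col x = col z := by
  have := h.hcol _ _ h2
  revert h1 this
  cases col x <;> cases col y <;> cases col z <;> simp

theorem Setup.dich (h : Setup G col f) {x y' y1 y2 x1 x2 : V} (hxy : col x ≠ col y')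
    (h1 : G.Adj y' y1) (h2 : G.Adj y' y2) (h3 : G.Adj x x1) (h4 : G.Adj x x2) :
    f x y1 = f x y2 ∨ f x1 y' = f x2 y' := by
  have a1 : col x = col y1 := h.eq_of_ne hxy h1
  have a2 : col x = col y2 := h.eq_of_ne hxy h2
  have b1 : col y' = col x1 := h.eq_of_ne hxy.symm h3
  have b2 : col y' = col x2 := h.eq_of_ne hxy.symm h4
  exact h.c4 _ _ _ _ (h.hf x x1 y1 y' a1 h3 h1.symm) (h.hf x1 x y' y2 b1.symm h3.symm h2)
    (h.hf x x2 y2 y' a2 h4 h2.symm) (h.hf x2 x y' y1 b2.symm h4.symm h1)

/-- bi-infinite walks without backtracking -/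
structure NB (G : SimpleGraph V) (w : ℤ → V) : Prop where
  adj : ∀ i, G.Adj (w i) (w (i + 1))
  nb : ∀ i, w i ≠ w (i + 2)

theorem NB.shift {w : ℤ → V} (hw : NB G w) (k : ℤ) : NB G (fun i => w (i + k)) := by
  constructor
  · intro i
    have := hw.adj (i + k)
    rwa [show i + k + 1 = i + 1 + k by ring] at this
  · intro i
    have := hw.nb (i + k)
    rwa [show i + k + 2 = i + 2 + k by ring] at this

theorem NB.rev {w : ℤ → V} (hw : NB G w) : NB G (fun i => w (1 - i)) := by
  constructor
  · intro i
    have := (hw.adj (1 - (i + 1))).symm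
    rwa [show 1 - (i + 1) + 1 = 1 - i by ring] at this
  · intro i
    have := (hw.nb (1 - (i + 2))).symm
    rwa [show 1 - (i + 2) + 2 = 1 - i by ring] at this

theorem NB.glue {w v : ℤ → V} (hw : NB G w) (hv : NB G v) (k : ℤ) (h1 : w k = v k)
    (h2 : w (k - 1) ≠ v (k + 1)) : NB G (fun i => if i ≤ k then w i else v i) := by
  constructor
  · intro i
    by_cases a : i + 1 ≤ k
    · simp only [if_pos a, if_pos (by omega : i ≤ k)]
      exact hw.adj i
    · by_cases b : i = k
      · subst b
        simp only [if_pos (le_refl i), if_neg a]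
        rw [h1]
        exact hv.adj i
      · simp only [if_neg a, if_neg (by omega : ¬ i ≤ k)]
        exact hv.adj i
  · intro i
    by_cases a : i + 2 ≤ k
    · simp only [if_pos a, if_pos (by omega : i ≤ k)]
      exact hw.nb i
    · by_cases b : i = k
      · subst b
        simp only [if_pos (le_refl i), if_neg a]
        rw [h1]
        exact hv.nb i
      · by_cases c : i = k - 1
        · subst c
          simp only [if_neg a, if_pos (by omega : k - 1 ≤ k)]
          rwa [show k - 1 + 2 = k + 1 by ring]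
        · simp only [if_neg a, if_neg (by omega : ¬ i ≤ k)]
          exact hv.nb i

theorem NB.col_even (h : Setup G col f) {w : ℤ → V} (hw : NB G w) (i : ℤ) (j : ℕ) :
    col (w (i + 2 * j)) = col (w i) := by
  induction j with
  | zero => simp
  | succ j ih =>
    have e1 := hw.adj (i + 2 * j)
    have e2 := hw.adj (i + 2 * j + 1)
    have e3 := h.eq_of_ne (h.hcol _ _ e1) e2
    rw [show i + 2 * j + 1 + 1 = i + 2 * ((j + 1 : ℕ) : ℤ) by push_cast; ring] at e3
    rw [← e3, ih]

/-- the dichotomy along a walk -/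
theorem Setup.walk_dich (h : Setup G col f) {w : ℤ → V} (hw : NB G w) (i : ℤ) (j : ℕ) :
    f (w i) (w (i + 2 * j)) = f (w i) (w (i + 2 * j + 2)) ∨
      f (w (i + 1)) (w (i + 2 * j + 1)) = f (w (i - 1)) (w (i + 2 * j + 1)) := by
  have e0 := hw.col_even h i j
  have e1 := hw.adj (i + 2 * j)
  have e2 := hw.adj (i + 2 * j + 1)
  have e3 := hw.adj i
  have e4 := hw.adj (i - 1)
  rw [show i - 1 + 1 = i by ring] at e4
  rw [show i + 2 * j + 1 + 1 = i + 2 * j + 2 by ring] at e2
  refine h.dich (x := w i) (y' := w (i + 2 * j + 1)) ?_ e1.symm e2 e3 e4.symm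
  rw [← e0]
  exact h.hcol _ _ e1

/-- first type -/
def T1 (f : V → V → V) (w : ℤ → V) : Prop := ∀ (j : ℕ) (i : ℤ), f (w i) (w (i + 2 * j)) = w i

theorem Setup.forward (h : Setup G col f) {w : ℤ → V} (hw : NB G w) (i0 : ℤ)
    (hp : ∀ (j : ℕ) (i : ℤ), i + 2 * j ≤ i0 → f (w i) (w (i + 2 * j)) = w i) : T1 f w := by
  intro j
  induction j with
  | zero =>
    intro i
    simp [h.idem]
  | succ j ih =>
    have base : ∀ i : ℤ, i + 2 * ((j + 1 : ℕ) : ℤ) ≤ i0 →
        f (w i) (w (i + 2 * ((j + 1 : ℕ) : ℤ))) = w i := fun i hi => hp (j + 1) i hi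
    have step : ∀ i : ℤ, f (w (i - 1)) (w (i - 1 + 2 * ((j + 1 : ℕ) : ℤ))) = w (i - 1) →
        f (w i) (w (i + 2 * ((j + 1 : ℕ) : ℤ))) = w i := by
      intro i hi
      rw [show i - 1 + 2 * ((j + 1 : ℕ) : ℤ) = i + 2 * j + 1 by push_cast; ring] at hi
      rw [show i + 2 * ((j + 1 : ℕ) : ℤ) = i + 2 * j + 2 by push_cast; ring]
      rcases h.walk_dich hw i j with e | e
      · rw [← e]
        exact ih i
      · exfalso
        rw [hi] at e
        have e' := ih (i + 1)
        rw [show i + 1 + 2 * (j : ℤ) = i + 2 * j + 1 by ring] at e'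
        rw [e'] at e
        have := hw.nb (i - 1)
        rw [show i - 1 + 2 = i + 1 by ring] at this
        exact this e.symm
    have all : ∀ (n : ℕ) (i : ℤ), i + 2 * ((j + 1 : ℕ) : ℤ) ≤ i0 + n →
        f (w i) (w (i + 2 * ((j + 1 : ℕ) : ℤ))) = w i := by
      intro n
      induction n with
      | zero => intro i hi; exact base i (by simpa using hi)
      | succ n ihn =>
        intro i hi
        apply step
        apply ihn
        push_cast at hi ⊢
        linarith
    intro i
    refine all (i + 2 * ((j + 1 : ℕ) : ℤ) - i0).toNat i ?_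
    have := Int.self_le_toNat (i + 2 * ((j + 1 : ℕ) : ℤ) - i0)
    linarith

/-- shift statement for windows of length `2 j` -/
def S (f : V → V → V) (w : ℤ → V) (j a : ℕ) : Prop :=
  ∀ i : ℤ, f (w i) (w (i + 2 * j)) = w (i + 2 * a)

theorem per_mul {w : ℤ → V} {N : ℕ} (hN : ∀ i : ℤ, w (i + 2 * N) = w i) (k : ℕ) (i : ℤ) :
    w (i + 2 * N * k) = w i := by
  induction k with
  | zero => simp
  | succ k ih =>
    rw [show i + 2 * (N : ℤ) * ((k + 1 : ℕ) : ℤ) = i + 2 * N * k + 2 * N by push_cast; ring, hN, ih]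

theorem Setup.step (h : Setup G col f) {w : ℤ → V} (hw : NB G w) {N : ℕ} (hN0 : 0 < N)
    (hN : ∀ i : ℤ, w (i + 2 * N) = w i) {j a : ℕ} (hS : S f w j a) :
    S f w (j + 1) a ∨ S f w (j + 1) (a + 1) := by
  by_cases hA : ∀ i : ℤ, f (w i) (w (i + 2 * j + 2)) = w (i + 2 * a)
  · left
    intro i
    rw [show i + 2 * ((j + 1 : ℕ) : ℤ) = i + 2 * j + 2 by push_cast; ring]
    exact hA i
  · right
    push Not at hA
    obtain ⟨i0, hi0⟩ := hA
    have key : ∀ i : ℤ, f (w i) (w (i + 2 * j + 2)) ≠ w (i + 2 * a) →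
        f (w (i - 1)) (w (i - 1 + 2 * j + 2)) = w (i - 1 + 2 * a + 2) := by
      intro i hi
      rcases h.walk_dich hw i j with e | e
      · exact absurd (e.symm.trans (hS i)) hi
      · have e' := hS (i + 1)
        rw [show i + 1 + 2 * (j : ℤ) = i + 2 * j + 1 by ring,
          show i + 1 + 2 * (a : ℤ) = i - 1 + 2 * a + 2 by ring] at e'
        rw [show i - 1 + 2 * (j : ℤ) + 2 = i + 2 * j + 1 by ring, ← e, e']
    have key2 : ∀ n : ℕ, f (w (i0 - 1 - n)) (w (i0 - 1 - n + 2 * j + 2)) =
        w (i0 - 1 - n + 2 * a + 2) := by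
      intro n
      induction n with
      | zero => simpa using key i0 hi0
      | succ n ih =>
        have := key (i0 - 1 - n) (by
          rw [ih]
          exact (hw.nb (i0 - 1 - n + 2 * a)).symm)
        rw [show i0 - 1 - ((n + 1 : ℕ) : ℤ) = i0 - 1 - n - 1 by push_cast; ring]
        exact this
    intro i
    rw [show i + 2 * ((j + 1 : ℕ) : ℤ) = i + 2 * j + 2 by push_cast; ring,
      show i + 2 * ((a + 1 : ℕ) : ℤ) = i + 2 * a + 2 by push_cast; ring]
    -- move back by a multiple of the period
    obtain ⟨k, hk⟩ : ∃ k : ℕ, i - 2 * N * k ≤ i0 - 1 := by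
      refine ⟨(i - i0 + 1).toNat, ?_⟩
      have h1 := Int.self_le_toNat (i - i0 + 1)
      have h2 : (0 : ℤ) ≤ ((i - i0 + 1).toNat : ℤ) := Int.natCast_nonneg _
      have h3 : (1 : ℤ) ≤ N := by exact_mod_cast hN0
      nlinarith
    have hn : (((i0 - 1) - (i - 2 * N * k)).toNat : ℤ) = (i0 - 1) - (i - 2 * N * k) :=
      Int.toNat_of_nonneg (by linarith)
    have := key2 ((i0 - 1) - (i - 2 * N * k)).toNat
    rw [hn] at this
    rw [show i0 - 1 - (i0 - 1 - (i - 2 * (N : ℤ) * k)) = i - 2 * N * k by ring] at this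
    have p1 := per_mul hN k (i - 2 * N * k)
    have p2 := per_mul hN k (i - 2 * N * k + 2 * j + 2)
    have p3 := per_mul hN k (i - 2 * N * k + 2 * a + 2)
    rw [show i - 2 * (N : ℤ) * k + 2 * N * k = i by ring] at p1
    rw [show i - 2 * (N : ℤ) * k + 2 * j + 2 + 2 * N * k = i + 2 * j + 2 by ring] at p2
    rw [show i - 2 * (N : ℤ) * k + 2 * a + 2 + 2 * N * k = i + 2 * a + 2 by ring] at p3
    rw [p1, p2, p3]
    exact this

theorem Setup.chain (h : Setup G col f) {w : ℤ → V} (hw : NB G w) {N : ℕ} (hN0 : 0 < N)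
    (hN : ∀ i : ℤ, w (i + 2 * N) = w i) {j a : ℕ} (hS : S f w j a) (t : ℕ) :
    ∃ b, a ≤ b ∧ b ≤ a + t ∧ S f w (j + t) b := by
  induction t with
  | zero => exact ⟨a, le_refl _, le_refl _, hS⟩
  | succ t ih =>
    obtain ⟨b, h1, h2, h3⟩ := ih
    rcases h.step hw hN0 hN h3 with e | e
    · exact ⟨b, h1, by omega, e⟩
    · exact ⟨b + 1, by omega, by omega, e⟩

/-- along a periodic walk `f` is a projection -/
theorem Setup.periodic (h : Setup G col f) {w : ℤ → V} (hw : NB G w)
    (hper : ∃ N : ℕ, 0 < N ∧ ∀ i : ℤ, w (i + 2 * N) = w i) :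
    T1 f w ∨ ∀ (j : ℕ) (i : ℤ), f (w i) (w (i + 2 * j)) = w (i + 2 * j) := by
  classical
  set l := Nat.find hper with hl
  obtain ⟨l0, lper⟩ : 0 < l ∧ ∀ i : ℤ, w (i + 2 * l) = w i := Nat.find_spec hper
  have lmin : ∀ b : ℕ, 0 < b → b < l → ¬ ∀ i : ℤ, w (i + 2 * b) = w i := by
    intro b hb hbl hcon
    exact Nat.find_min hper hbl ⟨hb, hcon⟩
  have Sl : ∀ b : ℕ, 0 < b → b < l → ¬ S f w l b := by
    intro b hb hbl hS
    refine lmin b hb hbl fun i => ?_
    have := hS i
    rw [lper i, h.idem] at this
    exact this.symm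
  have S00 : S f w 0 0 := by
    intro i
    simp [h.idem]
  have lgt : 1 < l := by
    by_contra hcon
    have : l = 1 := by omega
    have h2 := lper 0
    rw [this] at h2
    exact hw.nb 0 (by simpa using h2.symm)
  rcases h.step hw l0 lper S00 with hS | hS
  · left
    have main : ∀ j : ℕ, S f w j 0 := by
      intro j
      induction j using Nat.strong_induction_on with
      | _ j ih =>
        match j with
        | 0 => exact S00
        | 1 => exact hS
        | (j + 2) =>
          have hj := ih (j + 1) (by omega)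
          rcases h.step hw l0 lper hj with e | e
          · exact e
          · exfalso
            by_cases hc : l ≤ j + 2
            · have e1 := ih (j + 2 - l) (by omega) 0
              have e2 := e 0
              have e3 := lper (0 + 2 * ((j + 2 - l : ℕ) : ℤ))
              have e4 : (0 : ℤ) + 2 * ((j + 2 - l : ℕ) : ℤ) + 2 * l =
                  0 + 2 * ((j + 1 + 1 : ℕ) : ℤ) := by
                rw [Nat.cast_sub hc]; push_cast; ring
              rw [e4] at e3
              rw [e3, e1] at e2
              refine hw.nb 0 ?_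
              simpa using e2
            · obtain ⟨b, b1, b2, b3⟩ := h.chain hw l0 lper e (l - (j + 2))
              rw [show j + 1 + 1 + (l - (j + 2)) = l by omega] at b3
              exact Sl b (by omega) (by omega) b3
    intro j i
    have := main j i
    simpa using this
  · right
    have main : ∀ j : ℕ, S f w j j := by
      intro j
      induction j using Nat.strong_induction_on with
      | _ j ih =>
        match j with
        | 0 => exact S00
        | 1 => exact hS
        | (j + 2) =>
          have hj := ih (j + 1) (by omega)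
          rcases h.step hw l0 lper hj with e | e
          · exfalso
            by_cases hc : j + 2 ≤ l
            · obtain ⟨b, b1, b2, b3⟩ := h.chain hw l0 lper e (l - (j + 2))
              rw [show j + 1 + 1 + (l - (j + 2)) = l by omega] at b3
              exact Sl b (by omega) (by omega) b3
            · have e1 := ih (j + 2 - l) (by omega) 0
              have e2 := e 0
              have e3 := lper (0 + 2 * ((j + 2 - l : ℕ) : ℤ))
              have e4 : (0 : ℤ) + 2 * ((j + 2 - l : ℕ) : ℤ) + 2 * l =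
                  0 + 2 * ((j + 1 + 1 : ℕ) : ℤ) := by
                rw [Nat.cast_sub (by omega)]; push_cast; ring
              rw [e4] at e3
              rw [e3, e1, ← e3] at e2
              refine hw.nb (0 + 2 * ((j + 1 : ℕ) : ℤ)) ?_
              rw [← e2]
              congr 1
          · exact e
    intro j i
    exact main j i

end Pool.Agent.Helper928.PP
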