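import Pool.Agent.Helper928.PP.Graph

set_option autoImplicit false

namespace Pool.Agent.Helper928.PP

universe u

variable {V : Type u} {G : SimpleGraph V} {col : V → Bool} {f : V → V → V}

/-- permutations of the darts that move without backtracking -/
structure Rot (G : SimpleGraph V) (σ : Equiv.Perm G.Dart) : Prop where
  fst : ∀ d, (σ d).fst = d.snd
  snd : ∀ d, (σ d).snd ≠ d.fst

theorem finite_dart [Finite V] : Finite G.Dart :=
  Finite.of_injective (fun d : G.Dart => d.toProd) (SimpleGraph.Dart.toProd_injective)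

theorem exists_rot [Finite V] (hdeg : ∀ v u, G.Adj v u → ∃ w, w ≠ u ∧ G.Adj v w) :
    ∃ σ : Equiv.Perm G.Dart, Rot G σ := by
  classical
  have := finite_dart (G := G)
  have hτ : ∀ v, ∃ τ : Equiv.Perm V, ∀ u, G.Adj v u → G.Adj v (τ u) ∧ τ u ≠ u := by
    intro v
    have hfin : (G.neighborSet v).Finite := Set.toFinite _
    obtain ⟨τ, h1, h2⟩ := hfin.countable.exists_cycleOn
    refine ⟨τ, fun u hu => ⟨?_, ?_⟩⟩
    · exact h1.1.1 hu
    · refine h1.apply_ne ?_ hu
      obtain ⟨w, hw, hvw⟩ := hdeg v u hu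
      exact ⟨u, hu, w, hvw, hw.symm⟩
  choose τ hτ using hτ
  let s : G.Dart → G.Dart := fun d =>
    ⟨(d.snd, τ d.snd d.fst), (hτ d.snd d.fst d.adj.symm).1⟩
  have inj : Function.Injective s := by
    rintro ⟨⟨a, b⟩, hab⟩ ⟨⟨c, d⟩, hcd⟩ h
    have h1 : b = d := congrArg (fun e : G.Dart => e.fst) h
    subst h1
    have h2 : τ b a = τ b c := congrArg (fun e : G.Dart => e.snd) h
    have h3 : a = c := (τ b).injective h2
    subst h3
    rfl
  exact ⟨Equiv.ofBijective s (Finite.injective_iff_bijective.1 inj), fun d => rfl,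
    fun d => (hτ d.snd d.fst d.adj.symm).2⟩

/-- the walk along the orbit of a dart -/
def orb (σ : Equiv.Perm G.Dart) (d : G.Dart) (i : ℤ) : V := ((σ ^ i) d).fst

theorem pow_succ_apply (σ : Equiv.Perm G.Dart) (d : G.Dart) (i : ℤ) :
    (σ ^ (i + 1)) d = σ ((σ ^ i) d) := by
  rw [add_comm, zpow_one_add, Equiv.Perm.mul_apply]

theorem orb_zero (σ : Equiv.Perm G.Dart) (d : G.Dart) : orb σ d 0 = d.fst := by
  simp [orb]

theorem orb_succ {σ : Equiv.Perm G.Dart} (hσ : Rot G σ) (d : G.Dart) (i : ℤ) :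
    orb σ d (i + 1) = ((σ ^ i) d).snd := by
  rw [orb, pow_succ_apply, hσ.fst]

theorem orb_one {σ : Equiv.Perm G.Dart} (hσ : Rot G σ) (d : G.Dart) : orb σ d 1 = d.snd := by
  have := orb_succ hσ d 0
  simpa using this

theorem orb_nb {σ : Equiv.Perm G.Dart} (hσ : Rot G σ) (d : G.Dart) : NB G (orb σ d) := by
  constructor
  · intro i
    rw [orb_succ hσ]
    exact ((σ ^ i) d).adj
  · intro i
    rw [show i + 2 = i + 1 + 1 by ring, orb_succ hσ, pow_succ_apply]
    exact (hσ.snd _).symm

theorem orb_per [Finite V] (σ : Equiv.Perm G.Dart) (d : G.Dart) :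
    ∃ N : ℕ, 0 < N ∧ ∀ i : ℤ, orb σ d (i + 2 * N) = orb σ d i := by
  have := finite_dart (G := G)
  have : Finite (Equiv.Perm G.Dart) := inferInstance
  refine ⟨orderOf σ, orderOf_pos σ, fun i => ?_⟩
  have : σ ^ (2 * (orderOf σ : ℤ)) = 1 := by
    rw [mul_comm, zpow_mul, zpow_natCast, pow_orderOf_eq_one, one_zpow]
  rw [orb, zpow_add, this, mul_one]
  rfl

/-- a dart is good if it lies on a walk of the first type -/
def Good (f : V → V → V) (d : G.Dart) : Prop :=
  ∃ w : ℤ → V, NB G w ∧ w 0 = d.fst ∧ w 1 = d.snd ∧ T1 f w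

theorem T1.shift {w : ℤ → V} (hw : T1 f w) (k : ℤ) : T1 f (fun i => w (i + k)) := by
  intro j i
  have := hw j (i + k)
  rwa [show i + k + 2 * (j : ℤ) = i + 2 * j + k by ring] at this

theorem Setup.glueT (h : Setup G col f) {w v : ℤ → V} (hw : NB G w) (hv : NB G v) (k : ℤ)
    (h1 : w k = v k) (h2 : w (k - 1) ≠ v (k + 1)) (hT : T1 f w) :
    T1 f (fun i => if i ≤ k then w i else v i) := by
  refine h.forward (hw.glue hv k h1 h2) k ?_
  intro j i hi
  have hj : (0 : ℤ) ≤ j := Int.natCast_nonneg j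
  simp only [if_pos hi, if_pos (by linarith : i ≤ k)]
  exact hT j i

theorem Setup.good_succ (h : Setup G col f) {σ : Equiv.Perm G.Dart} (hσ : Rot G σ)
    {d d' : G.Dart} (hd : Good f d) (h1 : d'.fst = d.snd) (h2 : d'.snd ≠ d.fst) :
    Good f d' := by
  obtain ⟨w, hw, w0, w1, hT⟩ := hd
  have hv := (orb_nb hσ d').shift (-1)
  have a1 : w 1 = orb σ d' (1 + -1) := by
    rw [w1, ← h1, show (1 : ℤ) + -1 = 0 by norm_num, orb_zero]
  have a2 : w (1 - 1) ≠ orb σ d' (1 + 1 + -1) := by
    rw [show (1 : ℤ) + 1 + -1 = 1 by norm_num, orb_one hσ, show (1 : ℤ) - 1 = 0 by norm_num, w0]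
    exact h2.symm
  have hg := hw.glue hv 1 a1 a2
  have hgT := h.glueT hw hv 1 a1 a2 hT
  refine ⟨_, hg.shift 1, ?_, ?_, hgT.shift 1⟩
  · simp [w1, h1]
  · have : orb σ d' (1 + 1 + -1) = d'.snd := by
      rw [show (1 : ℤ) + 1 + -1 = 1 by norm_num, orb_one hσ]
    simpa using this

theorem Setup.good_orb [Finite V] (h : Setup G col f) {σ : Equiv.Perm G.Dart} (hσ : Rot G σ)
    {d : G.Dart} (hd : Good f d) : T1 f (orb σ d) := by
  obtain ⟨w, hw, w0, w1, hT⟩ := hd
  have hv := orb_nb hσ d
  rcases h.periodic hv (orb_per σ d) with e | e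
  · exact e
  · exfalso
    have a1 : w 0 = orb σ d 0 := by rw [w0, orb_zero]
    have a2 : w (0 - 1) ≠ orb σ d (0 + 1) := by
      rw [zero_add, orb_one hσ, ← w1]
      have := hw.nb (0 - 1)
      rwa [show (0 : ℤ) - 1 + 2 = 1 by norm_num] at this
    have hgT := h.glueT hw hv 0 a1 a2 hT
    have e1 := hgT 1 0
    have e2 := e 1 0
    simp only [zero_add, Nat.cast_one, mul_one, le_refl, if_true] at e1 e2
    rw [if_neg (by norm_num : ¬ (2 : ℤ) ≤ 0), a1] at e1
    rw [e1] at e2
    exact hv.nb 0 (by simpa using e2)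

theorem Setup.good_symm [Finite V] (h : Setup G col f) {σ : Equiv.Perm G.Dart} (hσ : Rot G σ)
    {d : G.Dart} (hd : Good f d) : Good f d.symm := by
  have hT := h.good_orb hσ hd
  obtain ⟨N, N0, hN⟩ := orb_per σ d
  have hv := orb_nb hσ d
  set p := orb σ d with hp
  have hr := hv.rev
  have hrper : ∃ N : ℕ, 0 < N ∧ ∀ i : ℤ, (fun i => p (1 - i)) (i + 2 * N) = (fun i => p (1 - i)) i := by
    refine ⟨N, N0, fun i => ?_⟩
    have := hN (1 - (i + 2 * N))
    simp only
    rw [← this]
    congr 1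
    ring
  rcases h.periodic hr hrper with e | e
  · refine ⟨_, hr, ?_, ?_, e⟩
    · simp only [sub_zero]
      rw [hp, orb_one hσ]
      rfl
    · simp only [sub_self]
      rw [hp, orb_zero]
      rfl
  · exfalso
    have e1 := e (N - 1) 0
    have e2 := hT 1 1
    simp only [sub_zero, zero_add, Nat.cast_one, mul_one] at e1 e2
    have e3 : p (1 - 2 * ((N - 1 : ℕ) : ℤ)) = p (1 + 2) := by
      have := hN (1 - 2 * ((N - 1 : ℕ) : ℤ))
      rw [← this]
      congr 1
      rw [Nat.cast_sub (by omega)]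
      push_cast
      ring
    rw [e3, e2] at e1
    exact hv.nb 1 e1

theorem Setup.all_good [Finite V] (h : Setup G col f) (hconn : G.Preconnected)
    {σ : Equiv.Perm G.Dart} (hσ : Rot G σ) {d0 : G.Dart} (hd0 : Good f d0) :
    ∀ d : G.Dart, Good f d := by
  have key : ∀ d : G.Dart, Good f d → ∀ d' : G.Dart, d'.fst = d.snd → Good f d' := by
    intro d hd d' h1
    by_cases h2 : d'.snd = d.fst
    · have : d' = d.symm := by
        apply SimpleGraph.Dart.ext
        exact Prod.ext h1 h2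
      rw [this]
      exact h.good_symm hσ hd
    · exact h.good_succ hσ hd h1 h2
  have key2 : ∀ (v v' : V) (_ : G.Walk v v'), (∀ d : G.Dart, d.fst = v → Good f d) →
      ∀ d : G.Dart, d.fst = v' → Good f d := by
    intro v v' p
    induction p with
    | nil => exact fun hh => hh
    | cons hadj _ ih =>
      intro hh
      apply ih
      intro d hd
      exact key ⟨(_, _), hadj⟩ (hh _ rfl) d hd
  intro d
  obtain ⟨p⟩ := hconn d0.snd d.fst
  exact key2 _ _ p (fun d' hd' => key d0 hd0 d' hd') d rfl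

theorem Setup.final_first [Finite V] (h : Setup G col f) (hconn : G.Preconnected)
    {σ : Equiv.Perm G.Dart} (hσ : Rot G σ) (hall : ∀ d : G.Dart, Good f d) :
    ∀ x y, col x = col y → f x y = x := by
  classical
  intro x y hxy
  by_cases hne : x = y
  · rw [hne, h.idem]
  obtain ⟨q⟩ := hconn x y
  obtain ⟨p, hp⟩ : ∃ p : G.Walk x y, p.IsPath := ⟨q.toPath.1, q.toPath.2⟩
  have hlen : 1 ≤ p.length := by
    by_contra hcon
    have : p.length = 0 := by omega
    exact hne (SimpleGraph.Walk.eq_of_length_eq_zero this)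
  have claim : ∀ m : ℕ, m + 1 ≤ p.length → ∃ w : ℤ → V, NB G w ∧ T1 f w ∧
      ∀ i : ℕ, i ≤ m + 1 → w i = p.getVert i := by
    intro m
    induction m with
    | zero =>
      intro hm
      have hadj := p.adj_getVert_succ (i := 0) (by omega)
      obtain ⟨w, hw, w0, w1, hT⟩ := hall ⟨(p.getVert 0, p.getVert (0 + 1)), hadj⟩
      refine ⟨w, hw, hT, ?_⟩
      intro i hi
      interval_cases i
      · simpa using w0
      · simpa using w1
    | succ m ih =>
      intro hm
      obtain ⟨w, hw, hT, hwi⟩ := ih (by omega)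
      have hadj := p.adj_getVert_succ (i := m + 1) (by omega)
      set d' : G.Dart := ⟨(p.getVert (m + 1), p.getVert (m + 1 + 1)), hadj⟩ with hd'
      have hv := (orb_nb hσ d').shift (-((m : ℤ) + 1))
      have a1 : w ((m : ℤ) + 1) = orb σ d' ((m : ℤ) + 1 + -((m : ℤ) + 1)) := by
        have := hwi (m + 1) (le_refl _)
        push_cast at this
        rw [this, add_neg_cancel, orb_zero]
      have a3 : orb σ d' ((m : ℤ) + 1 + 1 + -((m : ℤ) + 1)) = p.getVert (m + 1 + 1) := by
        rw [show (m : ℤ) + 1 + 1 + -((m : ℤ) + 1) = 1 by ring, orb_one hσ]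
      have a2 : w ((m : ℤ) + 1 - 1) ≠ orb σ d' ((m : ℤ) + 1 + 1 + -((m : ℤ) + 1)) := by
        rw [a3]
        have := hwi m (by omega)
        rw [show (m : ℤ) + 1 - 1 = m by ring, this]
        intro e
        have := hp.getVert_injOn (by simp only [Set.mem_ofPred_eq]; omega)
          (by simp only [Set.mem_ofPred_eq]; omega) e
        omega
      refine ⟨_, hw.glue hv _ a1 a2, h.glueT hw hv _ a1 a2 hT, ?_⟩
      intro i hi
      by_cases hc : i ≤ m + 1
      · have hc' : (i : ℤ) ≤ (m : ℤ) + 1 := by exact_mod_cast hc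
        simp only [if_pos hc']
        exact hwi i hc
      · have hi' : i = m + 1 + 1 := by omega
        subst hi'
        have hc' : ¬ (((m + 1 + 1 : ℕ) : ℤ) ≤ (m : ℤ) + 1) := by push_cast; omega
        simp only [if_neg hc']
        rw [← a3]
        congr 1
  obtain ⟨w, hw, hT, hwi⟩ := claim (p.length - 1) (by omega)
  have w0 : w 0 = x := by simpa using hwi 0 (by omega)
  have wn : w (p.length : ℤ) = y := by simpa using hwi p.length (by omega)
  rcases Nat.even_or_odd' p.length with ⟨j, hj | hj⟩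
  · have := hT j 0
    rw [hj] at wn
    push_cast at wn
    rw [zero_add, w0, wn] at this
    exact this
  · exfalso
    rw [hj] at wn
    push_cast at wn
    have e1 := hw.col_even h 0 j
    rw [zero_add, w0] at e1
    have e2 := h.hcol _ _ (hw.adj (2 * (j : ℤ)))
    rw [wn, e1] at e2
    exact e2 hxy

/-- **main graph theorem** -/
theorem Setup.main [Finite V] (h : Setup G col f) (hconn : G.Preconnected)
    (hdeg : ∀ v u, G.Adj v u → ∃ w, w ≠ u ∧ G.Adj v w) (d0 : G.Dart) :
    (∀ x y, col x = col y → f x y = x) ∨ (∀ x y, col x = col y → f x y = y) := by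
  obtain ⟨σ, hσ⟩ := exists_rot hdeg
  have hv := orb_nb hσ d0
  rcases h.periodic hv (orb_per σ d0) with e | e
  · left
    have hg : Good f d0 := ⟨_, hv, orb_zero σ d0, orb_one hσ d0, e⟩
    exact h.final_first hconn hσ (h.all_good hconn hσ hg)
  · right
    have h' := h.swap
    have hg : Good (fun x y => f y x) d0.symm := by
      refine ⟨_, hv.rev, ?_, ?_, ?_⟩
      · simp only [sub_zero]
        rw [orb_one hσ]
        rfl
      · simp only [sub_self]
        rw [orb_zero]
        rfl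
      · intro j i
        have := e j (1 - (i + 2 * j))
        rw [show 1 - (i + 2 * (j : ℤ)) + 2 * j = 1 - i by ring] at this
        exact this
    intro x y hxy
    exact h'.final_first hconn hσ (h'.all_good hconn hσ hg) y x hxy.symm

end Pool.Agent.Helper928.PP
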